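import Pool.Agent.Zk4.G.U

set_option autoImplicit false

/-!
# Scaling `F(z) = u Λ(h + 3z)`
-/

namespace Pool.Agent.Zk4.G.Sc

open Complex Filter Topology
open Pool.Agent.Zk4.G

noncomputable section

variable (h : ℝ) (Λ : ℂ → ℂ)

/-- the zeros of the `n`-th derivative off the line -/
def off (n : ℕ) (a b : ℝ) : Set ℂ := {s : ℂ | iteratedDeriv n Λ s = 0 ∧ s.re ≠ h ∧ a < s.im ∧ s.im ≤ b}

def M (n : ℕ) (a b : ℝ) : ℕ := ∑ᶠ s ∈ off h Λ n a b, analyticOrderNatAt (iteratedDeriv n Λ) s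

def critical (j : ℕ) (a b : ℝ) : Set ℝ := {t : ℝ | a < t ∧ t ≤ b ∧ iteratedDeriv j Λ (h + I * t) ≠ 0 ∧
  iteratedDeriv (j + 1) Λ (h + I * t) = 0}

open Classical in
def weight (j : ℕ) (t : ℝ) : ℕ := analyticOrderNatAt (iteratedDeriv (j + 1) Λ) (h + I * t) / 2 +
  if IsLocalMin (fun u : ℝ => ‖iteratedDeriv j Λ (h + I * u)‖) t then 1 else 0

def V (j : ℕ) (a b : ℝ) : ℕ := ∑ᶠ t ∈ critical h Λ j a b, weight h Λ j t

def W (n : ℕ) (a b : ℝ) : ℕ := ∑ᶠ j : ℕ, V h Λ (n + j) a b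

end

/-- the affine map -/
noncomputable def aff (h : ℝ) : ℂ ≃ ℂ where
  toFun z := h + 3 * z
  invFun w := (w - h) / 3
  left_inv z := by simp
  right_inv w := by simp; ring

theorem aff_re (h : ℝ) (z : ℂ) : (aff h z).re = h + 3 * z.re := by
  show ((h : ℂ) + 3 * z).re = _
  simp

theorem aff_im (h : ℝ) (z : ℂ) : (aff h z).im = 3 * z.im := by
  show ((h : ℂ) + 3 * z).im = _
  simp

/-- the order of `c • g (h + 3 z)` -/
theorem order_aff {g : ℂ → ℂ} (hg : Differentiable ℂ g) {c : ℂ} (hc : c ≠ 0) (h : ℝ) (z : ℂ) :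
    analyticOrderNatAt (fun z => c * g (h + 3 * z)) z = analyticOrderNatAt g (h + 3 * z) := by
  unfold analyticOrderNatAt
  have ha : AnalyticAt ℂ (fun _ : ℂ => c) z := analyticAt_const
  have hl : Differentiable ℂ (fun z : ℂ => (h : ℂ) + 3 * z) := by fun_prop
  have hg2 : AnalyticAt ℂ (fun z : ℂ => g (h + 3 * z)) z := (hg.comp hl).analyticAt z
  have h1 : analyticOrderAt (fun z => c * g (h + 3 * z)) z =
      analyticOrderAt (fun _ : ℂ => c) z + analyticOrderAt (fun z => g (h + 3 * z)) z :=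
    analyticOrderAt_mul ha hg2
  have h2 : analyticOrderAt (fun _ : ℂ => c) z = 0 := by
    rw [ha.analyticOrderAt_eq_zero]
    exact hc
  have h3 : analyticOrderAt (fun z => g (h + 3 * z)) z = analyticOrderAt g (h + 3 * z) := by
    have hd : deriv (fun z : ℂ => (h : ℂ) + 3 * z) z ≠ 0 := by
      have : HasDerivAt (fun z : ℂ => (h : ℂ) + 3 * z) 3 z := by
        simpa using ((hasDerivAt_id z).const_mul (3 : ℂ)).const_add (h : ℂ)
      rw [this.deriv]
      norm_num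
    exact analyticOrderAt_comp_of_deriv_ne_zero (f := g) (g := fun z : ℂ => (h : ℂ) + 3 * z)
      (hl.analyticAt z) hd
  rw [h1, h2, zero_add, h3]

section

variable {h : ℝ} {Λ F : ℂ → ℂ} {u : ℂ}

/-- the data of the scaling -/
structure Scl (h : ℝ) (Λ F : ℂ → ℂ) (u : ℂ) : Prop where
  diff : Differentiable ℂ Λ
  ne : u ≠ 0
  it : ∀ (n : ℕ) (z : ℂ), iteratedDeriv n F z = u * 3 ^ n * iteratedDeriv n Λ (h + 3 * z)

theorem Scl.c_ne (H : Scl h Λ F u) (n : ℕ) : u * 3 ^ n ≠ 0 := mul_ne_zero H.ne (pow_ne_zero _ (by norm_num))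

theorem Scl.zero (H : Scl h Λ F u) (n : ℕ) (z : ℂ) :
    iteratedDeriv n F z = 0 ↔ iteratedDeriv n Λ (h + 3 * z) = 0 := by
  rw [H.it, mul_eq_zero]
  constructor
  · rintro (h1 | h1)
    · exact absurd h1 (H.c_ne n)
    · exact h1
  · exact Or.inr

theorem Scl.mu (H : Scl h Λ F u) (n : ℕ) (z : ℂ) :
    mu F n z = analyticOrderNatAt (iteratedDeriv n Λ) (h + 3 * z) := by
  unfold Pool.Agent.Zk4.G.mu
  have h1 : iteratedDeriv n F = fun z => u * 3 ^ n * iteratedDeriv n Λ (h + 3 * z) := funext (H.it n)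
  rw [h1]
  exact order_aff (H.diff.contDiff.differentiable_iteratedDeriv' n) (H.c_ne n) h z

theorem Scl.off (H : Scl h Λ F u) (n : ℕ) (a b : ℝ) :
    off h Λ n (3 * a) (3 * b) = aff h '' {s : ℂ | s ∈ zs F n a b ∧ s.re ≠ 0} := by
  ext w
  constructor
  · rintro ⟨h1, h2, h3, h4⟩
    refine ⟨(aff h).symm w, ⟨⟨?_, ?_, ?_⟩, ?_⟩, (aff h).apply_symm_apply w⟩
    · rw [H.zero]
      have : (h : ℂ) + 3 * (aff h).symm w = w := (aff h).apply_symm_apply w
      rw [this]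
      exact h1
    · have := aff_im h ((aff h).symm w)
      rw [(aff h).apply_symm_apply] at this
      linarith
    · have := aff_im h ((aff h).symm w)
      rw [(aff h).apply_symm_apply] at this
      linarith
    · have := aff_re h ((aff h).symm w)
      rw [(aff h).apply_symm_apply] at this
      intro h0
      apply h2
      rw [this, h0]
      ring
  · rintro ⟨z, ⟨⟨h1, h2, h3⟩, h4⟩, rfl⟩
    refine ⟨?_, ?_, ?_, ?_⟩
    · exact (H.zero n z).1 h1
    · rw [aff_re]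
      intro h0
      apply h4
      linarith
    · rw [aff_im]; linarith
    · rw [aff_im]; linarith

theorem Scl.M (H : Scl h Λ F u) (n : ℕ) (a b : ℝ) : M h Λ n (3 * a) (3 * b) = MT F n a b := by
  unfold Pool.Agent.Zk4.G.Sc.M MT
  rw [H.off, finsum_mem_image ((aff h).injective.injOn)]
  refine finsum_congr fun z => finsum_congr fun _ => ?_
  rw [H.mu]
  rfl

theorem Scl.M' (H : Scl h Λ F u) (n : ℕ) (a b : ℝ) : Pool.Agent.Zk4.G.Sc.M h Λ n a b = MT F n (a / 3) (b / 3) := by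
  rw [← H.M]
  congr 1 <;> ring

end

end Pool.Agent.Zk4.G.Sc
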