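import Pool.Agent.Zk4.G.Pow
import Pool.Agent.Zk4.G.Sc
import Pool.Agent.Zk1.FH.Ct

set_option autoImplicit false

/-!
# The powers of the curve `y² = x³ - x`: input for the abstract theorem
-/

open Complex Filter Topology Set Polynomial
open scoped ComplexConjugate

namespace Pool.Agent.Zk4.G

open Pool.Agent.TH839.UH Pool.Agent.W169.HF Pool.Agent.W355.UN Pool.Agent.Zk1.FH
open Pool.Agent.Zk6.G (Ctl)

theorem pow_ctl : ∃ K : ℝ, 0 < K ∧ ∀ g m : ℕ, m < g →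
    ∃ Λ : ℂ → ℂ, Differentiable ℂ Λ ∧
    (∀ s : ℂ, (((2 * m + 1 : ℕ) : ℝ) - 1) / 2 < s.re →
      Λ s = (W355.HW.Cond g (2 * m + 1) : ℂ) ^ ((s - ((2 * m + 1 : ℕ) : ℂ) / 2) / 2) *
        W355.HW.GamF g (2 * m + 1) s * W355.HW.LL0 g m (s - ((2 * m + 1 : ℕ) : ℂ) / 2)) ∧
    (∀ s : ℂ, Λ (conj s) = conj (Λ s)) ∧
    (∃ r : ℕ, r ≤ 1 ∧ ∀ s : ℂ, Λ (((2 * m + 1 : ℕ) : ℂ) + 1 - s) = (-1) ^ r * Λ s) ∧
    ∃ (v : ℂ) (c : ℝ → ℝ), v ≠ 0 ∧ Ctl K (fun z => v * Λ ((((((2 * m + 1 : ℕ) : ℝ) + 1) / 2 : ℝ) : ℂ) + 3 * z)) c ∧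
      (∀ y : ℝ, c y = 2 * ((2 * g).choose (2 * m + 1) : ℝ) + Real.log (cnP g (2 * m + 1) (3 * y))) ∧
      (∃ D : ℝ, ∀ y : ℝ, 1 ≤ y → c y ≤ D * (1 + Real.log y)) ∧
      Sc.Scl ((((2 * m + 1 : ℕ) : ℝ) + 1) / 2) Λ
        (fun z => v * Λ ((((((2 * m + 1 : ℕ) : ℝ) + 1) / 2 : ℝ) : ℂ) + 3 * z)) v := by
  obtain ⟨C0, hC0, H, -⟩ := finH
  have hB0 := Bst_nonneg 1
  refine ⟨C0 + 3 * (Bst 1 + 12), by positivity, fun g m hm => ?_⟩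
  obtain ⟨Λ, X, L, μ, h1, h2, h3, ⟨r, hr, h4⟩, u, hcn, hX, G, hpk⟩ := pow_data g m hm
  refine ⟨Λ, h1, h2, h3, ⟨r, hr, h4⟩, ?_⟩
  have hres := H 0 _ _ _ _ _ (Pool.Agent.TH839.NA.PkT.of_pk hpk) zero_le_one
  obtain ⟨hfe, hreal⟩ := pow_fe (i := 2 * m + 1) h3 h4 hX
  obtain ⟨v, hv0, hv⟩ : ∃ v : ℂ, v ≠ 0 ∧ v * ((-1) ^ r : ℂ) = conj v := by
    interval_cases r
    · exact ⟨1, one_ne_zero, by simp⟩
    · exact ⟨I, I_ne_zero, by simp⟩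
  have hcond : (fun y => W355.UN.cond (W355.HW.Cond g (2 * m + 1)) μ y) = cnP g (2 * m + 1) := funext hcn
  have hFF : FF v X = fun z => v * Λ ((((((2 * m + 1 : ℕ) : ℝ) + 1) / 2 : ℝ) : ℂ) + 3 * z) := by
    funext z
    unfold FF
    rw [hX]
    congr 2
    push_cast
    ring
  have hctl : Ctl (C0 + 3 * (Bst 1 + 12)) (FF v X) (cc (W355.HW.Cond g (2 * m + 1)) μ) := by
    refine ctl_of u zero_le_one (fun y => ?_) (fun x y hx hxy => ?_) hfe hreal hC0 le_rfl ?_ hv0 hv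
    · rw [hcn, hcn, cnP_even]
    · rw [hcn, hcn]
      exact cnP_mono g _ hx hxy
    · rw [hcond]
      exact hres
  refine ⟨v, cc (W355.HW.Cond g (2 * m + 1)) μ, hv0, ?_, fun y => ?_, cc_log u.hN μ, ?_⟩
  · rw [← hFF]
    exact hctl
  · unfold cc
    rw [hcn]
  · refine ⟨h1, hv0, fun n z => ?_⟩
    rw [iter_aff h1 v _ n]

end Pool.Agent.Zk4.G
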