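import Pool.Agent.H24R2.DZ.Cir

set_option autoImplicit false

/-!
# The zeros off the line and the critical points of the derivatives: uniform form (Hasse-Weil L-functions)

`F` entire, `F(-conj z) = conj F(z)`, limit of polynomials with zeros in `|Re z| ≤ 1/2`, no derivative vanishes identically.
`f_n = F^(n)`, `q_n = f_(n+1)/f_n`, `g_n(u) = i^n f_n(iu)` is real.
-/

namespace Pool.Agent.Zk4.G

open Complex Filter Topology Polynomial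
open scoped ComplexConjugate

noncomputable section

/-- The data. -/
class FE (F : ℂ → ℂ) : Prop where
  diff : Differentiable ℂ F
  symm : ∀ z : ℂ, F (-(conj z)) = conj (F z)
  app : ∃ Q : ℕ → ℂ[X], (∀ N (z : ℂ), (Q N).IsRoot z → |z.re| ≤ 1 / 2) ∧
    TendstoLocallyUniformly (fun (N : ℕ) (z : ℂ) => (Q N).eval z) F atTop
  /-- no derivative vanishes identically, no derivative is an exponential -/
  ne : ∀ (n : ℕ) (c : ℂ), ∃ z : ℂ, iteratedDeriv (n + 1) F z ≠ c * iteratedDeriv n F z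

variable (F : ℂ → ℂ)

/-- the zeros with ordinate in `(a, b]` -/
def zs (n : ℕ) (a b : ℝ) : Set ℂ := {s : ℂ | iteratedDeriv n F s = 0 ∧ a < s.im ∧ s.im ≤ b}

def gn (n : ℕ) (u : ℝ) : ℝ := (I ^ n * iteratedDeriv n F (I * u)).re

def mu (n : ℕ) (s : ℂ) : ℕ := analyticOrderNatAt (iteratedDeriv n F) s

def qq (n : ℕ) (z : ℂ) : ℂ := iteratedDeriv (n + 1) F z / iteratedDeriv n F z

def NT (n : ℕ) (a b : ℝ) : ℕ := ∑ᶠ s ∈ zs F n a b, mu F n s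

def ZT (n : ℕ) (a b : ℝ) : ℕ := ∑ᶠ s ∈ {s : ℂ | s ∈ zs F n a b ∧ s.re = 0}, mu F n s

def MT (n : ℕ) (a b : ℝ) : ℕ := ∑ᶠ s ∈ {s : ℂ | s ∈ zs F n a b ∧ s.re ≠ 0}, mu F n s

open Classical in
def vw (n : ℕ) (u : ℝ) : ℕ :=
  mu F (n + 1) (I * u) / 2 + if IsLocalMin (fun x : ℝ => |gn F n x|) u then 1 else 0

def VT (n : ℕ) (a b : ℝ) : ℕ :=
  ∑ᶠ u ∈ {u : ℝ | a < u ∧ u ≤ b ∧ gn F n u ≠ 0 ∧ gn F (n + 1) u = 0}, vw F n u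

/-- PART A1 (Schwarz-Pick): `Re q_n > 0` to the right of the strip, `q_n' = q_n (q_(n+1) - q_n)`. -/
def S_A1 : Prop := (∀ (n : ℕ) (z : ℂ), 1 / 2 < z.re → iteratedDeriv n F z ≠ 0 ∧ 0 < (qq F n z).re) ∧
  ∀ (n : ℕ) (y : ℝ), ‖qq F n (⟨1, y⟩ : ℂ)‖ ≤ ‖qq F 0 (⟨1, y⟩ : ℂ)‖ + 4 * n

/-- PART A2: good heights, with an absolute constant; from the approximating polynomials -/
def S_A2 (C : ℝ) : Prop := ∀ (T : ℝ) (n n' : ℕ), ∃ V : ℝ, T ≤ V ∧ V ≤ T + 1 ∧ ∀ m : ℕ, m = n ∨ m = n' →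
    (∀ x : ℝ, |x| ≤ 1 → iteratedDeriv m F (⟨x, V⟩ : ℂ) ≠ 0) ∧
    ∫ x in (-1 : ℝ)..1, ‖qq F m (⟨x, V⟩ : ℂ)‖ ≤ C * (‖qq F n (⟨1, T⟩ : ℂ)‖ + ‖qq F n' (⟨1, T⟩ : ℂ)‖ + 1)

/-- PART A3: the zeros near the height `T` -/
def S_A3 (C : ℝ) : Prop := ∀ (T : ℝ) (n : ℕ) (S : Finset ℂ), (∀ s ∈ S, |s.im - T| ≤ 2 ∧ iteratedDeriv n F s = 0) →
  ∑ s ∈ S, (mu F n s : ℝ) ≤ C * ‖qq F n (⟨1, T⟩ : ℂ)‖

/-- PART A4 (from A1, A2, A3; port of CNT2 to two heights) -/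
def S_A4 (C : ℝ) : Prop := ∀ (a b : ℝ) (n n' : ℕ), a ≤ b → n ≤ n' →
  |((NT F n' a b : ℝ)) - NT F n a b| ≤ C * (‖qq F 0 (⟨1, a⟩ : ℂ)‖ + ‖qq F 0 (⟨1, b⟩ : ℂ)‖ + n' + 1)

/-- PART A5: Rolle between two heights (port of Zk2/FP/Rol.lean) -/
def S_A5 : Prop := ∀ (n : ℕ) (a b : ℝ), |((ZT F (n + 1) a b : ℤ) - ZT F n a b - 2 * VT F n a b)| ≤ 1

/-- PART A6 (from A4, A5) -/
def S_A6 (C : ℝ) : Prop := ∀ (a b : ℝ) (n k : ℕ), a ≤ b →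
  |(MT F n a b : ℝ) - MT F (n + k) a b - 2 * ∑ j ∈ Finset.range k, (VT F (n + j) a b : ℝ)| ≤
    C * (‖qq F 0 (⟨1, a⟩ : ℂ)‖ + ‖qq F 0 (⟨1, b⟩ : ℂ)‖ + (n + k : ℕ) + 1)

/-- PART A7: critical points have zeros off the line nearby (port of crit_weight, circ and near) -/
def S_A7 : Prop := ∀ (n k : ℕ) (u : ℝ), gn F (n + k) u ≠ 0 → gn F (n + k + 1) u = 0 → vw F (n + k) u ≠ 0 →
  ∃ s : ℂ, iteratedDeriv n F s = 0 ∧ s.re ≠ 0 ∧ (s.im - u) ^ 2 ≤ (k + 1) * s.re ^ 2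

/-- the abstract theorem -/
def S_A : Prop := ∃ C : ℝ, 0 < C ∧ ∀ F : ℂ → ℂ, FE F → S_A6 F C ∧ S_A7 F

end

end Pool.Agent.Zk4.G
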