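import Pool.Agent.Zk4.G.U
import Pool.Agent.Zk4.FP.GH2

set_option autoImplicit false

/-!
# Good heights and the number of zeros near a height, in terms of `q_n(1 + iT)`
-/

namespace Pool.Agent.Zk4.G

open Complex Filter Topology MeasureTheory Set Metric intervalIntegral
open Pool.Agent.W125.SD (jcount)
open Pool.Agent.Zk4.FP (Sf Wf w w_nonneg Sf_int landau_sum choose_height)

/-- the growth and the zeros of a function near the height `T` -/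
structure Gr (f : ℂ → ℂ) (A : ℝ) (T : ℝ) : Prop where
  diff : Differentiable ℂ f
  nn : 0 ≤ A
  strip : ∀ z : ℂ, f z = 0 → |z.re| ≤ 1 / 2
  bd : ∀ z : ℂ, ‖z - (⟨1, T⟩ : ℂ)‖ ≤ 5 → ‖f z‖ ≤ Real.exp A * ‖f (⟨1, T⟩ : ℂ)‖

theorem Gr.ne {f : ℂ → ℂ} {A T : ℝ} (h : Gr f A T) (y : ℝ) : f (⟨1, y⟩ : ℂ) ≠ 0 := by
  intro h0
  have := h.strip _ h0
  norm_num at this

theorem dist1 (T x V : ℝ) : ‖(⟨x, V⟩ : ℂ) - (⟨1, T⟩ : ℂ)‖ ≤ |x - 1| + |V - T| := by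
  have h4 := Complex.norm_le_abs_re_add_abs_im ((⟨x, V⟩ : ℂ) - (⟨1, T⟩ : ℂ))
  simpa using h4

/-- the zeros near the height `T` -/
theorem Gr.count {f : ℂ → ℂ} {A T : ℝ} (h : Gr f A T) (S : Finset ℂ)
    (hS : ∀ s ∈ S, |s.im - T| ≤ 2 ∧ f s = 0) :
    ∑ s ∈ S, (analyticOrderNatAt f s : ℝ) ≤ A / Real.log (5 / 4) := by
  refine jcount h.diff (c := (⟨1, T⟩ : ℂ)) (r := 4) (R := 5) (by norm_num) (by norm_num) (h.ne T) h.bd S ?_
  intro s hs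
  obtain ⟨h1, h2⟩ := hS s hs
  have h3 := dist1 T s.re s.im
  have h4 : (⟨s.re, s.im⟩ : ℂ) = s := rfl
  rw [h4] at h3
  have h5 := abs_le.1 (h.strip s h2)
  have h6 : |s.re - 1| ≤ 3 / 2 := by rw [abs_le]; constructor <;> linarith [h5.1, h5.2]
  linarith

theorem Gr.fin {f : ℂ → ℂ} {A T : ℝ} (h : Gr f A T) : {s : ℂ | |s.im - T| ≤ 2 ∧ f s = 0}.Finite := by
  by_contra hinf
  obtain ⟨k, hk⟩ := exists_nat_gt (A / Real.log (5 / 4))
  obtain ⟨S, hS1, hS2⟩ := Set.Infinite.exists_subset_card_eq hinf k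
  have h1 := h.count S fun s hs => hS1 hs
  have h2 : (k : ℝ) ≤ ∑ s ∈ S, (analyticOrderNatAt f s : ℝ) := by
    have h3 : ∑ s ∈ S, (1 : ℝ) ≤ ∑ s ∈ S, (analyticOrderNatAt f s : ℝ) := by
      refine Finset.sum_le_sum fun s hs => ?_
      have h4 : analyticOrderAt f s ≠ 0 := by
        rw [Ne, (h.diff.analyticAt s).analyticOrderAt_eq_zero]
        simpa using (hS1 hs).2
      have h5 : analyticOrderAt f s ≠ ⊤ := by
        intro h6
        have h7 : AnalyticOnNhd ℂ f univ := fun z _ => h.diff.analyticAt z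
        have h8 := h7.eqOn_zero_of_preconnected_of_eventuallyEq_zero isPreconnected_univ (mem_univ s)
          (analyticOrderAt_eq_top.1 h6)
        exact h.ne T (h8 (mem_univ _))
      have h6 : analyticOrderNatAt f s ≠ 0 := by
        unfold analyticOrderNatAt
        rw [Ne, ENat.toNat_eq_zero]
        tauto
      exact_mod_cast Nat.one_le_iff_ne_zero.2 h6
    simpa [hS2] using h3
  linarith

/-- the bound of the logarithmic derivative -/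
theorem Gr.near {f : ℂ → ℂ} {A T : ℝ} (h : Gr f A T) :
    ∃ s : Multiset ℂ, (∀ ρ ∈ s, f ρ = 0) ∧
      (Multiset.card s : ℝ) ≤ A / Real.log (5 / 4) ∧
      ∀ x V : ℝ, |x| ≤ 1 → T ≤ V → V ≤ T + 1 → f (⟨x, V⟩ : ℂ) ≠ 0 →
        ‖deriv f (⟨x, V⟩ : ℂ) / f (⟨x, V⟩ : ℂ)‖ ≤
          Sf s (⟨x, V⟩ : ℂ) + 28 * (A + A / Real.log (5 / 4) * Real.log 4 + 1) := by
  set p : ℂ := (⟨1, T⟩ : ℂ) with hp
  have hne : f p ≠ 0 := h.ne T
  set a : ℂ := (f p)⁻¹ with ha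
  have ha0 : a ≠ 0 := inv_ne_zero hne
  have hn0 : 0 < ‖f p‖ := norm_pos_iff.2 hne
  have hgp : a * f p = 1 := inv_mul_cancel₀ hne
  have h1A : 1 ≤ Real.exp A := Real.one_le_exp h.nn
  obtain ⟨s, hs, hcard, hl⟩ := landau_sum (f := fun z => a * f z) (c := p) (r := 4)
    (r1 := 3.5) (r2 := 3) (R := 5) (M := Real.exp A) (by norm_num) (by norm_num) (by norm_num)
    (by norm_num) (by norm_num) h1A (by simp only [hgp, norm_one]; exact h1A)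
    (fun z _ => (h.diff.const_mul a).analyticAt z) (by simp only [hgp]; exact one_ne_zero)
    (by
      intro z hz
      rw [mem_closedBall, dist_eq_norm] at hz
      rw [norm_mul, ha, norm_inv, inv_mul_le_iff₀ hn0, mul_comm]
      exact h.bd z hz)
  simp only [hgp, norm_one, div_one, Real.log_exp] at hl hcard
  refine ⟨s, fun ρ hρ => (mul_eq_zero.1 (hs ρ hρ)).resolve_left ha0, hcard, ?_⟩
  intro x V hx hV1 hV2 h0
  have h2 := hl (⟨x, V⟩ : ℂ) (by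
    rw [mem_closedBall, dist_eq_norm]
    have h4 := dist1 T x V
    have hx' := abs_le.1 hx
    have h7 : |x - 1| ≤ 2 := by rw [abs_le]; constructor <;> linarith [hx'.1, hx'.2]
    have h8 : |V - T| ≤ 1 := by rw [abs_le]; constructor <;> linarith
    linarith) (mul_ne_zero ha0 h0)
  have hder : deriv (fun z => a * f z) (⟨x, V⟩ : ℂ) = a * deriv f (⟨x, V⟩ : ℂ) :=
    deriv_const_mul _ (h.diff _)
  rw [hder, mul_div_mul_left _ _ ha0] at h2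
  refine h2.trans (le_of_eq ?_)
  have e : (4 : ℝ) / (5 - 4) = 4 := by norm_num
  rw [e]
  ring

/-- a good height for two functions -/
theorem good {f g : ℂ → ℂ} {A B T : ℝ} (hf : Gr f A T) (hg : Gr g B T) : ∃ V : ℝ, T ≤ V ∧ V ≤ T + 1 ∧
    ((∀ x : ℝ, f (⟨x, V⟩ : ℂ) ≠ 0) ∧ ∫ x in (-1 : ℝ)..1, ‖deriv f (⟨x, V⟩ : ℂ) / f (⟨x, V⟩ : ℂ)‖ ≤
      2000 * (A + B + 1)) ∧
    ((∀ x : ℝ, g (⟨x, V⟩ : ℂ) ≠ 0) ∧ ∫ x in (-1 : ℝ)..1, ‖deriv g (⟨x, V⟩ : ℂ) / g (⟨x, V⟩ : ℂ)‖ ≤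
      2000 * (A + B + 1)) := by
  classical
  obtain ⟨s0, z0, c0, l0⟩ := hf.near
  obtain ⟨sn, zn, cn, ln⟩ := hg.near
  have hA := hf.nn
  have hB := hg.nn
  have hfin : (Complex.im '' ({s : ℂ | |s.im - T| ≤ 2 ∧ f s = 0} ∪ {s : ℂ | |s.im - T| ≤ 2 ∧ g s = 0}) :
      Set ℝ).Finite := (hf.fin.union hg.fin).image _
  obtain ⟨V, hV1, hV2, hVΓ, hVW⟩ := choose_height s0 sn T _ hfin
  have hVT : |V - T| ≤ 2 := by rw [abs_le]; constructor <;> linarith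
  have hnzf : ∀ ρ : ℂ, f ρ = 0 → V ≠ ρ.im := by
    intro ρ hρ he
    apply hVΓ
    exact ⟨ρ, Or.inl ⟨by rw [← he]; exact hVT, hρ⟩, he.symm⟩
  have hnzg : ∀ ρ : ℂ, g ρ = 0 → V ≠ ρ.im := by
    intro ρ hρ he
    apply hVΓ
    exact ⟨ρ, Or.inr ⟨by rw [← he]; exact hVT, hρ⟩, he.symm⟩
  have hq1 : Real.log (5 / 4) ≥ 1 / 5 := by
    have := Real.one_sub_inv_le_log_of_pos (x := 5 / 4) (by norm_num)
    norm_num at this ⊢
    linarith
  have hq0 : 0 < Real.log (5 / 4) := by linarith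
  have hl4 : Real.log 4 ≤ 3 := by
    have := Real.log_le_sub_one_of_pos (x := 4) (by norm_num)
    linarith
  have hl40 : 0 ≤ Real.log 4 := Real.log_nonneg (by norm_num)
  have hAq : A / Real.log (5 / 4) ≤ 5 * A := by
    rw [div_le_iff₀ hq0]
    nlinarith
  have hBq : B / Real.log (5 / 4) ≤ 5 * B := by
    rw [div_le_iff₀ hq0]
    nlinarith
  have hAq0 : 0 ≤ A / Real.log (5 / 4) := by positivity
  have hBq0 : 0 ≤ B / Real.log (5 / 4) := by positivity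
  have hpos : ∀ (s : Multiset ℂ) (V : ℝ), 0 ≤ Wf s V := fun s V => by
    refine Multiset.sum_nonneg fun y hy => ?_
    obtain ⟨ρ, _, rfl⟩ := Multiset.mem_map.1 hy
    exact w_nonneg _
  have key : ∀ (h : ℂ → ℂ) (D : ℝ) (s : Multiset ℂ), Differentiable ℂ h → 0 ≤ D → D ≤ A + B →
      D / Real.log (5 / 4) ≤ 5 * D → 0 ≤ D / Real.log (5 / 4) →
      (∀ ρ : ℂ, h ρ = 0 → V ≠ ρ.im) → (∀ ρ ∈ s, h ρ = 0) → Wf s V ≤ Wf s0 V + Wf sn V →
      (∀ x V : ℝ, |x| ≤ 1 → T ≤ V → V ≤ T + 1 → h (⟨x, V⟩ : ℂ) ≠ 0 →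
        ‖deriv h (⟨x, V⟩ : ℂ) / h (⟨x, V⟩ : ℂ)‖ ≤
          Sf s (⟨x, V⟩ : ℂ) + 28 * (D + D / Real.log (5 / 4) * Real.log 4 + 1)) →
      (∀ x : ℝ, h (⟨x, V⟩ : ℂ) ≠ 0) ∧ ∫ x in (-1 : ℝ)..1, ‖deriv h (⟨x, V⟩ : ℂ) / h (⟨x, V⟩ : ℂ)‖ ≤
        2000 * (A + B + 1) := by
    intro h D s hd hD0 hD hDq hDq0 hnz hz hW hl
    have hnz2 : ∀ x : ℝ, h (⟨x, V⟩ : ℂ) ≠ 0 := fun x h0 => hnz _ h0 rfl
    refine ⟨hnz2, ?_⟩
    obtain ⟨i1, i2⟩ := Sf_int (s := s) (V := V) fun ρ hρ => hnz ρ (hz ρ hρ)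
    have hdd : Differentiable ℂ (deriv h) := fun z => ((hd.analyticAt z).deriv).differentiableAt
    have hcont : Continuous (fun x : ℝ => ‖deriv h (⟨x, V⟩ : ℂ) / h (⟨x, V⟩ : ℂ)‖) := by
      have : (fun x : ℝ => (⟨x, V⟩ : ℂ)) = fun x : ℝ => (x : ℂ) + (V : ℂ) * I := by
        funext x
        exact Complex.mk_eq_add_mul_I x V
      have hc : Continuous (fun x : ℝ => (⟨x, V⟩ : ℂ)) := by rw [this]; fun_prop
      exact ((hdd.continuous.comp hc).div (hd.continuous.comp hc) hnz2).norm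
    have hmono : ∫ x in (-1 : ℝ)..1, ‖deriv h (⟨x, V⟩ : ℂ) / h (⟨x, V⟩ : ℂ)‖ ≤
        ∫ x in (-1 : ℝ)..1, (Sf s (⟨x, V⟩ : ℂ) + 28 * (D + D / Real.log (5 / 4) * Real.log 4 + 1)) := by
      refine intervalIntegral.integral_mono_on (by norm_num) (hcont.intervalIntegrable _ _)
        (i1.add intervalIntegrable_const) ?_
      intro x hx
      exact hl x V (abs_le.2 ⟨by linarith [hx.1], by linarith [hx.2]⟩) hV1 hV2 (hnz2 x)
    refine hmono.trans ?_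
    rw [intervalIntegral.integral_add i1 intervalIntegrable_const, intervalIntegral.integral_const,
      smul_eq_mul]
    have e4 : D / Real.log (5 / 4) * Real.log 4 ≤ 5 * D * 3 :=
      mul_le_mul hDq hl4 hl40 (by positivity)
    have e7 : Wf s V ≤ 40 * (A + B) + 1 := by linarith
    nlinarith
  refine ⟨V, hV1, hV2, key f A s0 hf.diff hA (by linarith) hAq hAq0 hnzf z0 (by linarith [hpos sn V]) l0,
    key g B sn hg.diff hB (by linarith) hBq hBq0 hnzg zn (by linarith [hpos s0 V]) ln⟩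

variable {F : ℂ → ℂ}

/-- PART A3, from the growth -/
theorem A3_of (hG : ∀ (n : ℕ) (T : ℝ), Gr (iteratedDeriv n F) (30 * ‖qq F n (⟨1, T⟩ : ℂ)‖) T) :
    S_A3 F 150 := by
  intro T n S hS
  have h1 := (hG n T).count S hS
  have hq1 : Real.log (5 / 4) ≥ 1 / 5 := by
    have := Real.one_sub_inv_le_log_of_pos (x := 5 / 4) (by norm_num)
    norm_num at this ⊢
    linarith
  have hq0 : 0 < Real.log (5 / 4) := by linarith
  refine le_trans h1 ?_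
  rw [div_le_iff₀ hq0]
  have := norm_nonneg (qq F n (⟨1, T⟩ : ℂ))
  nlinarith

/-- PART A2, from the growth -/
theorem A2_of (hG : ∀ (n : ℕ) (T : ℝ), Gr (iteratedDeriv n F) (30 * ‖qq F n (⟨1, T⟩ : ℂ)‖) T) :
    S_A2 F 60000 := by
  intro T n n'
  obtain ⟨V, hV1, hV2, ⟨h1, h2⟩, h3, h4⟩ := good (hG n T) (hG n' T)
  have hde : ∀ m : ℕ, deriv (iteratedDeriv m F) = iteratedDeriv (m + 1) F := fun m => iteratedDeriv_succ.symm
  have hb : (2000 : ℝ) * (30 * ‖qq F n (⟨1, T⟩ : ℂ)‖ + 30 * ‖qq F n' (⟨1, T⟩ : ℂ)‖ + 1) ≤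
      60000 * (‖qq F n (⟨1, T⟩ : ℂ)‖ + ‖qq F n' (⟨1, T⟩ : ℂ)‖ + 1) := by linarith
  rw [hde] at h2 h4
  refine ⟨V, hV1, hV2, fun m hm => ?_⟩
  rcases hm with rfl | rfl
  · exact ⟨fun x _ => h1 x, h2.trans hb⟩
  · exact ⟨fun x _ => h3 x, h4.trans hb⟩

end Pool.Agent.Zk4.G
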