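import Pool.Agent.Zk4.G.U

set_option autoImplicit false

/-!
# The derivatives of a function of the class: approximation, zeros in the strip, `Re q_n > 0`
-/

namespace Pool.Agent.Zk4.G

open Complex Filter Topology Polynomial Set
open Pool.Agent.H24R2.DZ.CirAux (tlu_deriv gl_strip)

variable (F : ℂ → ℂ) [hF : FE F]

theorem iterD (n : ℕ) : Differentiable ℂ (iteratedDeriv n F) :=
  (hF.diff.contDiff (n := ((n + 1 : ℕ) : WithTop ℕ∞))).differentiable_iteratedDeriv n
    (by exact_mod_cast Nat.lt_succ_self n)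

theorem nz (n : ℕ) : ∃ z : ℂ, iteratedDeriv n F z ≠ 0 := by
  by_contra hcon
  push Not at hcon
  obtain ⟨z, hz⟩ := hF.ne n 0
  apply hz
  have : iteratedDeriv n F = fun _ => (0 : ℂ) := funext hcon
  rw [zero_mul, iteratedDeriv_succ, this, deriv_const]

theorem approxG (n : ℕ) : ∃ Q : ℕ → ℂ[X],
    (∀ᶠ N in atTop, Q N ≠ 0 ∧ ∀ z : ℂ, (Q N).IsRoot z → |z.re| ≤ 1 / 2) ∧
    TendstoLocallyUniformly (fun (N : ℕ) (z : ℂ) => (Q N).eval z) (iteratedDeriv n F) atTop := by
  have hnz : ∀ (n : ℕ) (Q : ℕ → ℂ[X]), TendstoLocallyUniformly (fun (N : ℕ) (z : ℂ) => (Q N).eval z)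
      (iteratedDeriv n F) atTop → ∀ᶠ N in atTop, Q N ≠ 0 := by
    intro n Q hQ
    obtain ⟨z, hz⟩ := nz F n
    have h1 := (tendstoLocallyUniformlyOn_univ.2 hQ).tendsto_at (Set.mem_univ z)
    filter_upwards [h1.eventually_ne hz] with N hN h0
    rw [h0] at hN
    simp at hN
  induction n with
  | zero =>
    obtain ⟨Q, hQ1, hQ2⟩ := hF.app
    refine ⟨Q, ?_, by simpa using hQ2⟩
    filter_upwards [hnz 0 Q (by simpa using hQ2)] with N hN
    exact ⟨hN, hQ1 N⟩
  | succ n ih =>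
    obtain ⟨Q, hQ1, hQ2⟩ := ih
    have h3 : TendstoLocallyUniformly (fun (N : ℕ) (z : ℂ) => (derivative (Q N)).eval z)
        (iteratedDeriv (n + 1) F) atTop := by
      rw [iteratedDeriv_succ]
      exact tlu_deriv hQ2
    refine ⟨fun N => derivative (Q N), ?_, h3⟩
    filter_upwards [hQ1, hnz (n + 1) _ h3] with N hN hN2
    exact ⟨hN2, fun z hz => gl_strip (Q N) hN2 hN.2 z hz⟩

/-- the zeros of the derivatives are in the strip -/
theorem strip (n : ℕ) (z : ℂ) (hz : iteratedDeriv n F z = 0) : |z.re| ≤ 1 / 2 := by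
  obtain ⟨Q, hQ1, hQ2⟩ := approxG F n
  obtain ⟨z1, hz1⟩ := nz F n
  refine le_of_forall_pos_le_add fun ε hε => ?_
  have h := Pool.Agent.H24R2.JP.NewtonAux.hurwitz (fun (N : ℕ) (z : ℂ) => (Q N).eval z)
    (iteratedDeriv n F) (fun N => (Q N).differentiable) hQ2 (iterD F n) z1 hz1 z hz ε hε
  obtain ⟨N, ⟨x, hx1, hx2⟩, hN⟩ := (h.and hQ1).exists
  have h3 := abs_le.1 (hN.2 x hx2)
  have h4 := abs_le.1 ((Complex.abs_re_le_norm (x - z)).trans hx1)
  rw [sub_re] at h4
  rw [abs_le]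
  constructor <;> linarith [h3.1, h3.2, h4.1, h4.2]

theorem ne_right (n : ℕ) (z : ℂ) (hz : 1 / 2 < z.re) : iteratedDeriv n F z ≠ 0 := by
  intro h0
  have := abs_le.1 (strip F n z h0)
  linarith [this.2]

/-- from `0 ≤ Re q_n` to `0 < Re q_n` -/
theorem re_pos_of (n : ℕ) (hn : ∀ z : ℂ, 1 / 2 < z.re → 0 ≤ (qq F n z).re) (z : ℂ) (hz : 1 / 2 < z.re) :
    0 < (qq F n z).re := by
  by_contra hcon
  have h0 : (qq F n z).re = 0 := le_antisymm (not_lt.1 hcon) (hn z hz)
  set U : Set ℂ := {z : ℂ | 1 / 2 < z.re} with hU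
  have hUo : IsOpen U := isOpen_lt continuous_const Complex.continuous_re
  have hUc : IsPreconnected U := (convex_halfSpace_re_gt (1 / 2)).isPreconnected
  have han : AnalyticOnNhd ℂ (qq F n) U := by
    intro x hx
    exact ((iterD F (n + 1)).analyticAt x).div ((iterD F n).analyticAt x) (ne_right F n x hx)
  rcases han.is_constant_or_isOpen hUc with ⟨c, hc⟩ | hop
  · -- constant
    obtain ⟨z1, hz1⟩ := hF.ne n c
    apply hz1
    have h1 : AnalyticOnNhd ℂ (iteratedDeriv (n + 1) F) univ := fun x _ => (iterD F (n + 1)).analyticAt x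
    have h2 : AnalyticOnNhd ℂ (fun z => c * iteratedDeriv n F z) univ :=
      fun x _ => ((iterD F n).const_mul c).analyticAt x
    refine h1.eqOn_of_preconnected_of_eventuallyEq h2 isPreconnected_univ (mem_univ z) ?_ (mem_univ z1)
    filter_upwards [hUo.mem_nhds hz] with x hx
    have h3 := hc x hx
    unfold qq at h3
    rw [div_eq_iff (ne_right F n x hx)] at h3
    exact h3
  · have h1 := hop U subset_rfl hUo
    have h2 : qq F n z ∈ qq F n '' U := ⟨z, hz, rfl⟩
    obtain ⟨ε, hε, hb⟩ := Metric.isOpen_iff.1 h1 _ h2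
    have h3 : qq F n z - (ε / 2 : ℝ) ∈ Metric.ball (qq F n z) ε := by
      rw [Metric.mem_ball, dist_eq_norm]
      have : qq F n z - (ε / 2 : ℝ) - qq F n z = ((-(ε / 2) : ℝ) : ℂ) := by push_cast; ring
      rw [this, Complex.norm_real, Real.norm_eq_abs, abs_neg, abs_of_pos (by linarith)]
      linarith
    obtain ⟨x, hx, hx2⟩ := hb h3
    have h4 := hn x hx
    rw [hx2] at h4
    simp only [sub_re, ofReal_re] at h4
    linarith

end Pool.Agent.Zk4.G
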