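import Pool.Agent.Zk6.G.Exm
import Pool.Agent.Zk69.G.XF
import Pool.Agent.Zk3.G.A56
import Pool.Agent.Zk4.G.Str

set_option autoImplicit false

/-!
# The exact formula between two free heights, one derivative
-/

namespace Pool.Agent.Zk4.G

open Complex Filter Topology Set
open Pool.Agent.Zk6.G (Fre S_Ex zfin)

variable {F : ℂ → ℂ}

/-- no zeros with ordinates in `(a, T]` for `T` near `a` -/
theorem gap (hF : FE F) (n : ℕ) (a : ℝ) :
    ∀ᶠ T in 𝓝[>] a, ∀ s : ℂ, iteratedDeriv n F s = 0 → ¬ (a < s.im ∧ s.im ≤ T) := by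
  have hf := zfin hF n a (a + 1)
  have h1 : ∀ᶠ T in 𝓝[>] a, ∀ s ∈ zs F n a (a + 1), T < s.im := by
    refine (hf.eventually_all).2 fun s hs => ?_
    exact (eventually_lt_nhds hs.2.1).filter_mono nhdsWithin_le_nhds
  have h2 : ∀ᶠ T in 𝓝[>] a, T < a + 1 := (eventually_lt_nhds (by linarith)).filter_mono nhdsWithin_le_nhds
  filter_upwards [h1, h2] with T hT1 hT2 s hs h3
  have := hT1 s ⟨hs, h3.1, by linarith [h3.2]⟩
  linarith [h3.2]

/-- being free is an open condition -/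
theorem free_near (hF : FE F) (n : ℕ) (a : ℝ) (ha : Fre F n a) : ∀ᶠ T in 𝓝[>] a, Fre F n T := by
  have hf := zfin hF n (a - 3) (a + 3)
  have h1 : ∀ᶠ T in 𝓝[>] a, ∀ s ∈ zs F n (a - 3) (a + 3), s.re ≠ 0 → |s.re| < |s.im - T| := by
    refine (hf.eventually_all).2 fun s hs => ?_
    by_cases h0 : s.re = 0
    · exact Eventually.of_forall fun T h => absurd h0 h
    · have h3 := ha s hs.1 h0
      have hc : ContinuousAt (fun T : ℝ => |s.im - T|) a := by fun_prop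
      have h4 : ∀ᶠ T in 𝓝 a, |s.re| < |s.im - T| := hc.eventually (lt_mem_nhds h3)
      exact (h4.filter_mono nhdsWithin_le_nhds).mono fun T hT _ => hT
  have h2 : ∀ᶠ T in 𝓝[>] a, T < a + 1 := (eventually_lt_nhds (by linarith)).filter_mono nhdsWithin_le_nhds
  filter_upwards [h1, h2, self_mem_nhdsWithin] with T hT1 hT2 hT3 s hs h0
  rw [mem_Ioi] at hT3
  by_cases h4 : a - 3 < s.im ∧ s.im ≤ a + 3
  · exact hT1 s ⟨hs, h4.1, h4.2⟩ h0
  · have h5 : |s.re| ≤ 1 / 2 := strip F n s hs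
    have h6 : 1 ≤ |s.im - T| := by
      by_contra h7
      push Not at h7
      have h8 := abs_lt.1 h7
      exact h4 ⟨by linarith [h8.1], by linarith [h8.2]⟩
    linarith

/-- the counts do not change -/
theorem zs_shift {n : ℕ} {a a' b b' : ℝ} (haa : a < a') (_ : a' < b) (hbb : b < b')
    (h1 : ∀ s : ℂ, iteratedDeriv n F s = 0 → ¬ (a < s.im ∧ s.im ≤ a'))
    (h2 : ∀ s : ℂ, iteratedDeriv n F s = 0 → ¬ (b < s.im ∧ s.im ≤ b')) : zs F n a' b' = zs F n a b := by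
  ext s
  constructor
  · rintro ⟨h3, h4, h5⟩
    refine ⟨h3, by linarith, ?_⟩
    by_contra h6
    exact h2 s h3 ⟨by linarith, h5⟩
  · rintro ⟨h3, h4, h5⟩
    refine ⟨h3, ?_, by linarith⟩
    by_contra h6
    exact h1 s h3 ⟨h4, by linarith⟩

theorem t_Ex (hF : FE F) : S_Ex F := by
  intro n a b hab ha hb
  have hA := Pool.Agent.Zk6.G.t_A1 F
  have hI : ∀ (m : ℕ) (T : ℝ), gn F m T = 0 ↔ iteratedDeriv m F (I * T) = 0 := fun m T =>
    Pool.Agent.Zk3.G.gn_zero m T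
  have him : ∀ T : ℝ, (I * (T : ℂ)).im = T := fun T => by simp
  -- the new heights
  obtain ⟨a', ⟨⟨a1, a2⟩, a3⟩, a4, a5⟩ := (((gap hF n a).and (gap hF (n + 1) a)).and (free_near hF n a ha)
    |>.and (((eventually_lt_nhds hab).filter_mono nhdsWithin_le_nhds).and
      (self_mem_nhdsWithin : ∀ᶠ T in 𝓝[>] a, T ∈ Ioi a))).exists
  obtain ⟨b', ⟨⟨b1, b2⟩, b3⟩, b5⟩ := (((gap hF n b).and (gap hF (n + 1) b)).and (free_near hF n b hb)
    |>.and (self_mem_nhdsWithin : ∀ᶠ T in 𝓝[>] b, T ∈ Ioi b)).exists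
  have ga : ∀ m, (∀ s : ℂ, iteratedDeriv m F s = 0 → ¬ (a < s.im ∧ s.im ≤ a')) → gn F m a' ≠ 0 := by
    intro m hm h0
    exact hm _ ((hI m a').1 h0) ⟨by rw [him]; exact a5, by rw [him]⟩
  have gb : ∀ m, (∀ s : ℂ, iteratedDeriv m F s = 0 → ¬ (b < s.im ∧ s.im ≤ b')) → gn F m b' ≠ 0 := by
    intro m hm h0
    exact hm _ ((hI m b').1 h0) ⟨by rw [him]; exact b5, by rw [him]⟩
  have hga : gn F n a' * gn F (n + 1) a' ≠ 0 := mul_ne_zero (ga n a1) (ga (n + 1) a2)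
  have hgb : gn F n b' * gn F (n + 1) b' ≠ 0 := mul_ne_zero (gb n b1) (gb (n + 1) b2)
  have hab' : a' < b' := by linarith
  have e1 := Pool.Agent.Zk3.G.rolle_FE (F := F) n hab' hga hgb
  have e2 := Pool.Agent.Zk69.G.XF.wind_gn hF hA (n := n) hab'
    (fun x hx _ => Pool.Agent.Zk69.G.XF.t_XF F n a' a3 x hx) hga
    (fun x hx _ => Pool.Agent.Zk69.G.XF.t_XF F n b' b3 x hx) hgb
  have z0 : zs F n a' b' = zs F n a b := zs_shift a5 a4 b5 a1 b1
  have z1 : zs F (n + 1) a' b' = zs F (n + 1) a b := zs_shift a5 a4 b5 a2 b2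
  have n0 : NT F n a' b' = NT F n a b := by unfold NT; rw [z0]
  have n1 : NT F (n + 1) a' b' = NT F (n + 1) a b := by unfold NT; rw [z1]
  have y0 : ZT F n a' b' = ZT F n a b := by unfold ZT; rw [z0]
  have y1 : ZT F (n + 1) a' b' = ZT F (n + 1) a b := by unfold ZT; rw [z1]
  have v0 : VT F n a' b' = VT F n a b := by
    unfold VT
    congr 1
    funext u
    have : (u ∈ {u : ℝ | a' < u ∧ u ≤ b' ∧ gn F n u ≠ 0 ∧ gn F (n + 1) u = 0}) =
        (u ∈ {u : ℝ | a < u ∧ u ≤ b ∧ gn F n u ≠ 0 ∧ gn F (n + 1) u = 0}) := by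
      apply propext
      constructor
      · rintro ⟨h3, h4, h5, h6⟩
        refine ⟨by linarith, ?_, h5, h6⟩
        by_contra h7
        exact b2 _ ((hI (n + 1) u).1 h6) ⟨by rw [him]; linarith, by rw [him]; exact h4⟩
      · rintro ⟨h3, h4, h5, h6⟩
        refine ⟨?_, by linarith, h5, h6⟩
        by_contra h7
        exact a2 _ ((hI (n + 1) u).1 h6) ⟨by rw [him]; exact h3, by rw [him]; linarith⟩
    rw [this]
  have m0 := Pool.Agent.Zk3.G.MT_add hA n a b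
  have m1 := Pool.Agent.Zk3.G.MT_add hA (n + 1) a b
  rw [n0, n1] at e2
  rw [y0, y1, v0] at e1
  omega

end Pool.Agent.Zk4.G
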