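import Pool.Agent.Zk1.FH.Inp1
import Pool.Agent.TH839.UH.HWF

set_option autoImplicit false

/-!
# The powers of the curve `y² = x³ - x`
-/

open Complex Filter Topology Set Polynomial
open scoped ComplexConjugate

namespace Pool.Agent.Zk4.G

open Pool.Agent.TH839.UH Pool.Agent.W169.HF Pool.Agent.W355.UN

theorem pow_data (g m : ℕ) (hm : m < g) :
    ∃ (Λ X L : ℂ → ℂ) (μ : Fin ((2 * g).choose (2 * m + 1)) → ℂ), Differentiable ℂ Λ ∧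
    (∀ s : ℂ, (((2 * m + 1 : ℕ) : ℝ) - 1) / 2 < s.re →
      Λ s = (W355.HW.Cond g (2 * m + 1) : ℂ) ^ ((s - ((2 * m + 1 : ℕ) : ℂ) / 2) / 2) *
        W355.HW.GamF g (2 * m + 1) s * W355.HW.LL0 g m (s - ((2 * m + 1 : ℕ) : ℂ) / 2)) ∧
    (∀ s : ℂ, Λ (conj s) = conj (Λ s)) ∧
    (∃ r : ℕ, r ≤ 1 ∧ ∀ s : ℂ, Λ (((2 * m + 1 : ℕ) : ℂ) + 1 - s) = (-1) ^ r * Λ s) ∧
    UL ((2 * g).choose (2 * m + 1)) Bst (W355.HW.Cond g (2 * m + 1)) 0 μ X L ∧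
    (∀ y, Pool.Agent.W355.UN.cond (W355.HW.Cond g (2 * m + 1)) μ y = cnP g (2 * m + 1) y) ∧
    (∀ z, X z = Λ (z + (((((2 * m + 1 : ℕ) : ℝ) / 2 : ℝ)) : ℂ))) ∧
    ∃ G : ℂ → ℂ, Pk ((2 * g).choose (2 * m + 1)) (W355.HW.Cond g (2 * m + 1)) (cnP g (2 * m + 1)) G X := by
  obtain ⟨C', K, hC', -, H'⟩ := Pool.Agent.W355.UN.fin_all
  obtain ⟨Λ, h1, h2, h3, h4, -⟩ := Pool.Agent.W355.UN.main_pow H' hC' g m hm
  obtain ⟨X, hpk, hst⟩ := pk_pow g m hm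
  have hd := hpk.diff
  have hpk' := hpk
  obtain ⟨μ, L, u, ec, σ, hσ⟩ := hpk
  have hc2 : ((2 * m + 1 : ℕ) : ℂ) / 2 = (((((2 * m + 1 : ℕ) : ℝ) / 2 : ℝ)) : ℂ) := by
    push_cast
    rfl
  refine ⟨Λ, X, L, μ, h1, h2, h3, h4, u, ec, ?_, _, hpk'⟩
  intro z
  have hd2 : Differentiable ℂ fun z : ℂ => Λ (z + (((((2 * m + 1 : ℕ) : ℝ) / 2 : ℝ)) : ℂ)) :=
    h1.comp (by fun_prop)
  have e : (fun z => Λ (z + (((((2 * m + 1 : ℕ) : ℝ) / 2 : ℝ)) : ℂ))) = X := by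
    refine Pk.uniq hd hd2 (G := W355.HW.GP g m) ⟨σ, hσ⟩ ⟨0, fun s hs => ?_⟩
    show Λ (s + (((((2 * m + 1 : ℕ) : ℝ) / 2 : ℝ)) : ℂ)) = _
    rw [h2 _ (by rw [add_re, ofReal_re]; linarith), hc2, add_sub_cancel_right]
    unfold W355.HW.GP
    rw [W355.HW.BB_eq, ← W355.HW.GamF_eq]
    rw [← hc2]
    simp only [add_sub_cancel_right]
  exact (congrFun e z).symm

/-- evenness -/
theorem cnP_even (g i : ℕ) (y : ℝ) : cnP g i (-y) = cnP g i y := by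
  have h : ∀ c : ℂ, c.im = 0 → ‖((-y : ℝ) : ℂ) * I + c‖ = ‖(y : ℂ) * I + c‖ := by
    intro c hc
    rw [← Complex.norm_conj]
    congr 1
    apply Complex.ext <;> simp [hc]
  unfold cnP
  congr 1
  refine Finset.prod_congr rfl fun p _ => ?_
  rw [h _ (by simp), h _ (by simp)]

/-- monotony -/
theorem cnP_mono (g i : ℕ) {x y : ℝ} (hx : 0 ≤ x) (hxy : x ≤ y) : cnP g i x ≤ cnP g i y := by
  have h : ∀ c : ℂ, c.im = 0 → ‖(x : ℂ) * I + c‖ ≤ ‖(y : ℂ) * I + c‖ := by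
    intro c hc
    refine le_of_sq_le_sq ?_ (norm_nonneg _)
    rw [← Complex.normSq_eq_norm_sq, ← Complex.normSq_eq_norm_sq, Complex.normSq_apply,
      Complex.normSq_apply]
    simp [hc]
    nlinarith
  unfold cnP
  have hN : 0 ≤ W355.HW.Cond g i := by unfold W355.HW.Cond; positivity
  refine mul_le_mul_of_nonneg_left ?_ hN
  refine Finset.prod_le_prod (fun p _ => by positivity) fun p _ => ?_
  refine pow_le_pow_left₀ (by positivity) ?_ _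
  have h1 := h ((i : ℂ) / 2 - p) (by simp)
  have h2 := h ((i : ℂ) / 2 - p + 1) (by simp)
  gcongr

/-- the functional equation and the reality for `X` -/
theorem pow_fe {i : ℕ} {Λ X : ℂ → ℂ} (h3 : ∀ s : ℂ, Λ (conj s) = conj (Λ s))
    {r : ℕ} (h4 : ∀ s : ℂ, Λ ((i : ℂ) + 1 - s) = (-1) ^ r * Λ s)
    (hX : ∀ z, X z = Λ (z + ((((i : ℝ) / 2 : ℝ)) : ℂ))) :
    (∀ s : ℂ, X s = (-1) ^ r * conj (X (1 - conj s))) ∧ ∀ s : ℂ, conj (X (conj s)) = X s := by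
  constructor
  · intro s
    rw [hX, hX, ← h3]
    have e : conj (1 - conj s + ((((i : ℝ) / 2 : ℝ)) : ℂ)) = (i : ℂ) + 1 - (s + ((((i : ℝ) / 2 : ℝ)) : ℂ)) := by
      simp only [map_add, map_sub, map_one, Complex.conj_conj, Complex.conj_ofReal]
      push_cast
      ring
    rw [e, h4, ← mul_assoc, ← mul_pow]
    norm_num
  · intro s
    rw [hX, hX, ← h3]
    congr 1
    simp only [map_add, Complex.conj_conj, Complex.conj_ofReal]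

end Pool.Agent.Zk4.G
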