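import Pool.Agent.Zk6.G.Fin
import Pool.Agent.Zk4.G.Str

set_option autoImplicit false

/-!
# The Riemann hypothesis in terms of the critical points of the derivatives
-/

namespace Pool.Agent.Zk4.G

open Complex Filter Topology Asymptotics
open Pool.Agent.Zk6.G (Ctl CF CA)

/-- `T` is a free height for all orders `≥ n` -/
def FreeT (F : ℂ → ℂ) (c : ℝ → ℝ) (K1 : ℝ) (n : ℕ) (T : ℝ) : Prop :=
  ∀ s : ℂ, iteratedDeriv n F s = 0 → s.re ≠ 0 → K1 * c T * s.re ^ 2 < (s.im - T) ^ 2

variable {K : ℝ} {F : ℂ → ℂ} {c : ℝ → ℝ}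

theorem VT_zero_of (hv : ∀ (j : ℕ) (u : ℝ), gn F j u ≠ 0 → gn F (j + 1) u = 0 → vw F j u = 0)
    (j : ℕ) (a b : ℝ) : VT F j a b = 0 := by
  unfold VT
  exact finsum_mem_eq_zero_of_forall_eq_zero fun u hu => hv j u hu.2.2.1 hu.2.2.2

theorem offset_finite [hF : FE F] (n : ℕ) (a b : ℝ) : {s : ℂ | s ∈ zs F n a b ∧ s.re ≠ 0}.Finite :=
  (Pool.Agent.Zk3.G.zs_finite (Pool.Agent.Zk6.G.t_A1 F) n a b).subset fun _ h => h.1

/-- the number of distinct zeros off the line is at most `M` -/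
theorem card_le_MT [hF : FE F] (n : ℕ) (a b : ℝ) (S : Finset ℂ)
    (hS : ∀ s ∈ S, s ∈ zs F n a b ∧ s.re ≠ 0) : S.card ≤ MT F n a b := by
  classical
  unfold MT
  have hf := offset_finite (F := F) n a b
  rw [finsum_mem_eq_finite_toFinset_sum _ hf]
  have h1 : S ⊆ hf.toFinset := fun s hs => hf.mem_toFinset.2 (hS s hs)
  calc S.card = ∑ s ∈ S, 1 := by simp
    _ ≤ ∑ s ∈ S, mu F n s := by
      refine Finset.sum_le_sum fun s hs => ?_
      have h2 := (hS s hs).1.1
      have h3 : mu F n s ≠ 0 := by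
        unfold mu analyticOrderNatAt
        rw [Ne, ENat.toNat_eq_zero, not_or]
        refine ⟨?_, Pool.Agent.Zk3.G.ne_top n s⟩
        rw [((iterD F n).analyticAt s).analyticOrderAt_eq_zero]
        simpa using h2
      exact Nat.one_le_iff_ne_zero.2 h3
    _ ≤ ∑ s ∈ hf.toFinset, mu F n s := Finset.sum_le_sum_of_subset h1

/-- if there are only `O(log x)` zeros off the line up to the height `x` there are free heights -/
theorem exists_free (hK : 0 < K) (h : Ctl K F c) {A : ℝ} (hlog : ∀ y : ℝ, 1 ≤ y → c y ≤ A * (1 + Real.log y))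
    {K1 : ℝ} (hK1 : 0 < K1) {C : ℝ} (hC : 0 < C)
    (hM : ∀ x : ℝ, 0 ≤ x → (MT F 0 (-x) x : ℝ) ≤ C * c x) (y0 : ℝ) (hy0 : 0 ≤ y0) {σ : ℝ} (hσ : σ = 1 ∨ σ = -1) :
    ∃ T : ℝ, y0 ≤ T ∧ FreeT F c K1 0 (σ * T) := by
  classical
  have hFE := h.fe
  have hA : 1 ≤ A := by
    have h1 := hlog 1 le_rfl
    have h2 := h.one 1
    rw [Real.log_one] at h1
    linarith
  -- a large `x`
  set D : ℝ := (4 * (K1 * A + 1) + 1) * (C * A + 3) with hD
  have hD0 : 0 < D := by positivity
  have hl := (Real.isLittleO_pow_log_id_atTop (n := 2)).def (c := (1 : ℝ) / (8 * D)) (by positivity)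
  obtain ⟨x, hx1, hx2, hx3⟩ := (hl.and ((eventually_ge_atTop (Real.exp 1)).and
    (eventually_ge_atTop (4 * (y0 + 1))))).exists
  have hxe : 1 ≤ x := (Real.one_le_exp (by norm_num)).trans hx2
  have hx0 : 0 < x := by linarith
  have hlx : 1 ≤ Real.log x := by rwa [Real.le_log_iff_exp_le hx0]
  rw [Real.norm_eq_abs, Real.norm_eq_abs, abs_of_nonneg (by positivity), id, abs_of_pos hx0] at hx1
  set L : ℝ := 1 + Real.log x with hL
  have hL1 : 1 ≤ L := by linarith
  have hL2 : D * L ^ 2 ≤ x / 2 := by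
    have h1 : L ≤ 2 * Real.log x := by linarith
    have h2 : L ^ 2 ≤ 4 * Real.log x ^ 2 := by nlinarith
    have h3 : D * L ^ 2 ≤ D * (4 * Real.log x ^ 2) := mul_le_mul_of_nonneg_left h2 hD0.le
    have h4 : D * (4 * Real.log x ^ 2) ≤ D * (4 * (1 / (8 * D) * x)) := by
      refine mul_le_mul_of_nonneg_left ?_ hD0.le
      linarith
    have h5 : D * (4 * (1 / (8 * D) * x)) = x / 2 := by field_simp; ring
    linarith
  set R : ℝ := (K1 * A + 1) * L with hR
  have hR1 : 1 ≤ R := by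
    have : 1 * 1 ≤ (K1 * A + 1) * L := mul_le_mul (by nlinarith [mul_pos hK1 (by linarith : 0 < A)]) hL1 (by norm_num) (by positivity)
    linarith
  set n0 : ℕ := ⌈C * A * L⌉₊ with hn0
  have hn1 : C * A * L ≤ n0 := Nat.le_ceil _
  have hn2 : (n0 : ℝ) < C * A * L + 1 := Nat.ceil_lt_add_one (by positivity)
  have hcx : c x ≤ A * L := hlog x hxe
  by_contra hcon
  push Not at hcon
  -- the heights
  set V : ℕ → ℝ := fun k => y0 + R + (2 * R + 1) * k with hV
  have hVy : ∀ k, y0 ≤ V k := fun k => by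
    have : 0 ≤ (2 * R + 1) * (k : ℝ) := by positivity
    simp only [hV]
    linarith
  have hVx : ∀ k, k ≤ n0 → V k + R < x := by
    intro k hk
    have hk' : (k : ℝ) ≤ n0 := by exact_mod_cast hk
    have h1 : (2 * R + 1) * (k : ℝ) ≤ (2 * R + 1) * (C * A * L + 1) :=
      mul_le_mul_of_nonneg_left (by linarith) (by linarith)
    have h2 : y0 + R + (2 * R + 1) * (C * A * L + 1) + R ≤ y0 + (2 * R + 1) * (C * A * L + 2) := by linarith
    have h3 : (2 * R + 1) * (C * A * L + 2) ≤ D * L ^ 2 := by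
      have e1 : 2 * R + 1 ≤ (4 * (K1 * A + 1) + 1) * L := by
        have : 0 ≤ 2 * R := by linarith
        have e3 : (4 * (K1 * A + 1) + 1) * L = 4 * R + L := by rw [hR]; ring
        linarith
      have e2 : C * A * L + 2 ≤ (C * A + 3) * L := by nlinarith
      calc (2 * R + 1) * (C * A * L + 2) ≤ ((4 * (K1 * A + 1) + 1) * L) * ((C * A + 3) * L) :=
            mul_le_mul e1 e2 (by positivity) (by positivity)
        _ = D * L ^ 2 := by rw [hD]; ring
    simp only [hV]
    linarith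
  have hex : ∀ k : ℕ, ∃ s : ℂ, k ≤ n0 → (iteratedDeriv 0 F s = 0 ∧ s.re ≠ 0 ∧ |s.im - σ * V k| ≤ R) := by
    intro k
    by_cases hk : k ≤ n0
    · have h1 := hcon (V k) (hVy k)
      unfold FreeT at h1
      push Not at h1
      obtain ⟨s, h2, h3, h4⟩ := h1
      refine ⟨s, fun _ => ⟨h2, h3, ?_⟩⟩
      have h5 := strip F 0 s h2
      have h6 : s.re ^ 2 ≤ 1 := by
        rw [← sq_abs]
        nlinarith [abs_nonneg s.re]
      have hVk := hVx k hk
      have hVk0 := hVy k
      have h7 : c (σ * V k) ≤ A * L := by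
        refine le_trans (h.c_le ?_) hcx
        have h8 : |σ * V k| = V k := by
          rcases hσ with rfl | rfl
          · rw [one_mul, abs_of_nonneg (by linarith)]
          · rw [neg_one_mul, abs_neg, abs_of_nonneg (by linarith)]
        rw [h8, abs_of_pos hx0]
        linarith
      have h9 : K1 * c (σ * V k) * s.re ^ 2 ≤ R ^ 2 := by
        have hc0 := h.one (σ * V k)
        have e1 : K1 * c (σ * V k) * s.re ^ 2 ≤ K1 * (A * L) * 1 :=
          mul_le_mul (mul_le_mul_of_nonneg_left h7 hK1.le) h6 (sq_nonneg _) (by positivity)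
        have e2 : K1 * (A * L) * 1 ≤ R := by rw [hR]; nlinarith
        nlinarith
      exact abs_le_of_sq_le_sq (h4.trans h9) (by linarith)
    · exact ⟨0, fun h => absurd h hk⟩
  choose f hf using hex
  have hinj : Set.InjOn f (Finset.range (n0 + 1) : Set ℕ) := by
    intro j hj k hk hjk
    rw [Finset.coe_range, Set.mem_Iio] at hj hk
    have h1 := (hf j (by omega)).2.2
    have h2 := (hf k (by omega)).2.2
    rw [hjk] at h1
    by_contra hne
    have h3 : |σ * V j - σ * V k| ≤ 2 * R := by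
      have e : σ * V j - σ * V k = ((f k).im - σ * V k) - ((f k).im - σ * V j) := by ring
      rw [e]
      exact (abs_sub _ _).trans (by linarith)
    have h4 : |σ * V j - σ * V k| = (2 * R + 1) * |(j : ℝ) - k| := by
      have e : σ * V j - σ * V k = σ * ((2 * R + 1) * ((j : ℝ) - k)) := by simp only [hV]; ring
      rw [e, abs_mul, abs_mul, abs_of_pos (by linarith : 0 < 2 * R + 1)]
      rcases hσ with rfl | rfl <;> simp
    have h5 : 1 ≤ |(j : ℝ) - k| := by
      have h6 : (1 : ℤ) ≤ |(j : ℤ) - k| := Int.one_le_abs (by omega)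
      have h7 : ((|(j : ℤ) - k| : ℤ) : ℝ) = |(j : ℝ) - k| := by push_cast; rfl
      rw [← h7]
      exact_mod_cast h6
    rw [h4] at h3
    nlinarith
  have hS := card_le_MT (F := F) 0 (-x) x ((Finset.range (n0 + 1)).image f) (by
    intro s hs
    obtain ⟨k, hk, rfl⟩ := Finset.mem_image.1 hs
    rw [Finset.mem_range] at hk
    obtain ⟨h1, h2, h3⟩ := hf k (by omega)
    have h4 := hVx k (by omega)
    have h5 := hVy k
    have h6 := abs_le.1 h3
    refine ⟨⟨h1, ?_, ?_⟩, h2⟩
    · rcases hσ with rfl | rfl <;> linarith [h6.1, h6.2]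
    · rcases hσ with rfl | rfl <;> linarith [h6.1, h6.2])
  rw [Finset.card_image_of_injOn hinj, Finset.card_range] at hS
  have hS' : ((n0 + 1 : ℕ) : ℝ) ≤ MT F 0 (-x) x := by exact_mod_cast hS
  push_cast at hS'
  have h8 := hM x hx0.le
  have h9 : C * c x ≤ C * A * L := by
    rw [mul_assoc]
    exact mul_le_mul_of_nonneg_left hcx hC.le
  linarith

/-- **the Riemann hypothesis** in terms of the critical points -/
theorem grh (hK : 0 < K) (h : Ctl K F c) (hlog : ∃ A : ℝ, ∀ y : ℝ, 1 ≤ y → c y ≤ A * (1 + Real.log y))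
    {K1 : ℝ} (hK1 : 0 < K1)
    (hex : ∀ a b : ℝ, a ≤ b → FreeT F c K1 0 a → FreeT F c K1 0 b → MT F 0 a b = 2 * ∑ᶠ j, VT F (0 + j) a b) :
    (∀ s : ℂ, F s = 0 → s.re = 0) ↔
      ∀ (j : ℕ) (u : ℝ), gn F j u ≠ 0 → gn F (j + 1) u = 0 → vw F j u = 0 := by
  have hFE := h.fe
  constructor
  · intro hrh j u h0 h1
    by_contra hv
    have h2 : gn F (0 + j) u ≠ 0 := by rwa [zero_add]
    have h3 : gn F (0 + j + 1) u = 0 := by rwa [zero_add]
    have h4 : vw F (0 + j) u ≠ 0 := by rwa [zero_add]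
    obtain ⟨s, hs1, hs2, -⟩ := Pool.Agent.Zk6.G.t_A7 h.fe 0 j u h2 h3 h4
    rw [iteratedDeriv_zero] at hs1
    exact hs2 (hrh s hs1)
  · intro hv s hs
    by_contra hre
    obtain ⟨A, hA⟩ := hlog
    have hVT : ∀ j a b, VT F j a b = 0 := VT_zero_of hv
    have hCF : 0 < CF K := by
      unfold CF CA
      positivity
    have hM : ∀ x : ℝ, 0 ≤ x → (MT F 0 (-x) x : ℝ) ≤ (2 * CF K) * c x := by
      intro x hx
      have h1 := (Pool.Agent.Zk6.G.fin K hK F c h (-x) x (by linarith)).2 0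
      simp only [hVT, finsum_zero, Nat.cast_zero, mul_zero, sub_zero] at h1
      rw [h.even] at h1
      have h2 := (abs_le.1 h1).2
      linarith
    obtain ⟨T1, h1, h2⟩ := exists_free hK h hA hK1 (C := 2 * CF K) (by positivity) hM (|s.im| + 1) (by positivity)
      (σ := 1) (Or.inl rfl)
    obtain ⟨T2, h3, h4⟩ := exists_free hK h hA hK1 (C := 2 * CF K) (by positivity) hM (|s.im| + 1) (by positivity)
      (σ := -1) (Or.inr rfl)
    have h5 := abs_le.1 (le_refl |s.im|)
    have h6 := hex (-1 * T2) (1 * T1) (by linarith [h5.1, h5.2, abs_nonneg s.im]) h4 h2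
    simp only [hVT, finsum_zero, mul_zero] at h6
    have h7 := card_le_MT (F := F) 0 (-1 * T2) (1 * T1) {s} (by
      intro z hz
      rw [Finset.mem_singleton] at hz
      subst hz
      refine ⟨⟨by rwa [iteratedDeriv_zero], ?_, ?_⟩, hre⟩
      · linarith [h5.1, h5.2]
      · linarith [h5.1, h5.2])
    rw [h6] at h7
    simp at h7

end Pool.Agent.Zk4.G
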