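import Pool.Agent.Y671.GL.Spec4

set_option autoImplicit false

/-!
# The zeros off the line and the critical points of the derivatives, for completed L-functions: generic form

`X` is entire, `X(-conj z) = conj X(z)` (real up to `i^n` on the imaginary axis), a limit of polynomials with zeros in `|Re z| ≤ 1/2`.
`f_n = X^(n)`, `g_n(u) = i^n f_n(iu)` is real.
-/

namespace Pool.Agent.Zk4.G

open Complex Filter Topology Polynomial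
open scoped ComplexConjugate

noncomputable section

/-- The data. -/
class FD (X : ℂ → ℂ) : Prop where
  diff : Differentiable ℂ X
  symm : ∀ z : ℂ, X (-(conj z)) = conj (X z)
  app : ∃ Q : ℕ → ℂ[X], (∀ N (z : ℂ), (Q N).IsRoot z → |z.re| ≤ 1 / 2) ∧
    TendstoLocallyUniformly (fun (N : ℕ) (z : ℂ) => (Q N).eval z) X atTop
  ne : ∃ p : ℂ, ∀ n : ℕ, iteratedDeriv n X p ≠ 0
  /-- growth of the derivatives on discs -/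
  grow : ∀ K : ℝ, 1 ≤ K → ∃ P C T0 : ℝ, 1 ≤ P ∧ 0 < C ∧ 2 ≤ T0 ∧ ∀ (t : ℝ) (n : ℕ), T0 ≤ t → (n : ℝ) ≤ K * Real.log t →
    iteratedDeriv n X (I * t + P) ≠ 0 ∧ ∀ z : ℂ, ‖z - (I * t + P)‖ ≤ P + 6 →
      ‖iteratedDeriv n X z‖ ≤ Real.exp (C * Real.log t) * ‖iteratedDeriv n X (I * t + P)‖
  /-- few bad zeros -/
  dd : ∃ c C : ℝ, 0 < c ∧ 0 < C ∧ ∀ (n : ℕ) (T : ℝ), 2 ≤ T → ∀ S : Finset ℂ,
    (∀ s ∈ S, Pool.Agent.Y671.LD.bad X n s ∧ 0 < s.im ∧ s.im ≤ T) →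
    ∑ s ∈ S, (analyticOrderNatAt (iteratedDeriv n X) s : ℝ) ≤ C * T * Real.log T * Real.exp (-(c * n))
  /-- many zeros -/
  tot : ∀ K : ℝ, 1 ≤ K → ∃ c T0 : ℝ, 0 < c ∧ 2 ≤ T0 ∧ ∀ (n : ℕ) (T : ℝ), T0 ≤ T → (n : ℝ) ≤ K * Real.log T →
    ∃ S : Finset ℂ, (∀ s ∈ S, iteratedDeriv n X s = 0 ∧ 0 < s.im ∧ s.im ≤ T) ∧
      c * T * Real.log T ≤ ∑ s ∈ S, (analyticOrderNatAt (iteratedDeriv n X) s : ℝ)

/-- the zeros with ordinate in `(0, T]` -/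
def zs (X : ℂ → ℂ) (n : ℕ) (T : ℝ) : Set ℂ := {s : ℂ | iteratedDeriv n X s = 0 ∧ 0 < s.im ∧ s.im ≤ T}

def gn (X : ℂ → ℂ) (n : ℕ) (u : ℝ) : ℝ := (I ^ n * iteratedDeriv n X (I * u)).re

def mu (X : ℂ → ℂ) (n : ℕ) (s : ℂ) : ℕ := analyticOrderNatAt (iteratedDeriv n X) s

def NT (X : ℂ → ℂ) (n : ℕ) (T : ℝ) : ℕ := ∑ᶠ s ∈ zs X n T, mu X n s

def ZT (X : ℂ → ℂ) (n : ℕ) (T : ℝ) : ℕ := ∑ᶠ s ∈ {s : ℂ | s ∈ zs X n T ∧ s.re = 0}, mu X n s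

def MT (X : ℂ → ℂ) (n : ℕ) (T : ℝ) : ℕ := ∑ᶠ s ∈ {s : ℂ | s ∈ zs X n T ∧ s.re ≠ 0}, mu X n s

open Classical in
def vw (X : ℂ → ℂ) (n : ℕ) (u : ℝ) : ℕ :=
  mu X (n + 1) (I * u) / 2 + if IsLocalMin (fun x : ℝ => |gn X n x|) u then 1 else 0

def VT (X : ℂ → ℂ) (n : ℕ) (T : ℝ) : ℕ :=
  ∑ᶠ u ∈ {u : ℝ | 0 < u ∧ u ≤ T ∧ gn X n u ≠ 0 ∧ gn X (n + 1) u = 0}, vw X n u

/-- `∑_{j ≥ n} V_j` -/
def WT (X : ℂ → ℂ) (n : ℕ) (T : ℝ) : ℕ := ∑ᶠ j, VT X (n + j) T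

/-- no zeros off the line near the height `b` -/
def Free (X : ℂ → ℂ) (n : ℕ) (b : ℝ) : Prop := ∀ s : ℂ, iteratedDeriv n X s = 0 → s.re ≠ 0 → 1 / 2 < |s.im - b|

/-- the sign of `-g_(n+1)/g_n` -/
def sg (X : ℂ → ℂ) (n : ℕ) (u : ℝ) : ℤ := if 0 < gn X (n + 1) u / gn X n u then -1 else 1

/-- PART G1: the growth from the data of the starting library (`Unit.lean` in Y671/LD; `CF` gives the size of `X`) -/
def S_G1 : Prop := ∀ (κ : ℝ) (H X Z : ℂ → ℂ), 1 / 2 ≤ κ → κ ≤ 10 ^ 40 → Pool.Agent.Y671.GL.GG κ H X Z →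
  Pool.Agent.Y671.GL.AppX X → Pool.Agent.Y671.GL.LowX X → FD X

/-- PART G2: Rolle (port of Zk2/FP/Rol.lean) -/
def S_G2 (X : ℂ → ℂ) : Prop := ∀ (n : ℕ) (T : ℝ), |((ZT X (n + 1) T : ℤ) - ZT X n T - 2 * VT X n T)| ≤ 1

/-- PART G3: Rolle, exact, between two heights (endpoints added to the maxima or to the minima of `|g_n|` in `interlace`) -/
def S_G3 (X : ℂ → ℂ) : Prop := ∀ (n : ℕ) (a b : ℝ), 0 < a → a < b → gn X n a ≠ 0 → gn X (n + 1) a ≠ 0 →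
  gn X n b ≠ 0 → gn X (n + 1) b ≠ 0 →
  2 * (((ZT X (n + 1) b : ℤ) - ZT X (n + 1) a) - ((ZT X n b : ℤ) - ZT X n a) - 2 * ((VT X n b : ℤ) - VT X n a)) =
    sg X n b - sg X n a

/-- PART G4: strict sign (port of Zk4/FP/X3.lean), also for `1/2 < Re z` without `Free` -/
def S_G4 (X : ℂ → ℂ) : Prop := (∀ (n : ℕ) (z : ℂ), 1 / 2 < z.re → 0 < (iteratedDeriv (n + 1) X z / iteratedDeriv n X z).re) ∧
  ∀ (n : ℕ) (b : ℝ), Free X n b → ∀ x : ℝ, 0 < x →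
    0 < (iteratedDeriv (n + 1) X (⟨x, b⟩ : ℂ) / iteratedDeriv n X (⟨x, b⟩ : ℂ)).re

/-- PART G5: the argument principle, exact, between two free heights: the argument of `q = f_(n+1)/f_n` along the right half of the
boundary of `[-1,1] x [a,b]` (from `ia` to `ib`, `Re q > 0` inside) changes by `arg q(ib) - arg q(ia)`; the left half is symmetric. -/
def S_G5 (X : ℂ → ℂ) : Prop := ∀ (n : ℕ) (a b : ℝ), 0 < a → a < b → Free X n a → Free X n b → gn X n a ≠ 0 →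
  gn X (n + 1) a ≠ 0 → gn X n b ≠ 0 → gn X (n + 1) b ≠ 0 →
  2 * (((NT X (n + 1) b : ℤ) - NT X (n + 1) a) - ((NT X n b : ℤ) - NT X n a)) = sg X n b - sg X n a

/-- PART G6: good heights for two derivatives (port of Zk4/FP/GH2.lean) -/
def S_G6 (X : ℂ → ℂ) : Prop := ∀ K : ℝ, 1 ≤ K → ∃ C T0 : ℝ, 0 < C ∧ 2 ≤ T0 ∧ ∀ (T : ℝ) (n n' : ℕ), T0 ≤ T →
  (n : ℝ) ≤ K * Real.log T → (n' : ℝ) ≤ K * Real.log T →
  ∃ V : ℝ, T ≤ V ∧ V ≤ T + 1 ∧ ∀ m : ℕ, m = n ∨ m = n' →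
    (∀ x : ℝ, |x| ≤ 1 → iteratedDeriv m X (⟨x, V⟩ : ℂ) ≠ 0) ∧
    ∫ x in (-1 : ℝ)..1, ‖iteratedDeriv (m + 1) X (⟨x, V⟩ : ℂ) / iteratedDeriv m X (⟨x, V⟩ : ℂ)‖ ≤ C * Real.log T

/-- PART G7 (from G4, G6 and `grow`): the numbers of zeros (port of CNT2, between two heights) -/
def S_G7 (X : ℂ → ℂ) : Prop := ∀ K : ℝ, 1 ≤ K → ∃ C T0 : ℝ, 0 < C ∧ 2 ≤ T0 ∧ ∀ (a b : ℝ) (n n' : ℕ), T0 ≤ a → a ≤ b →
  n ≤ n' → (n' : ℝ) ≤ K * Real.log a →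
  |((NT X n' b : ℝ) - NT X n' a) - ((NT X n b : ℝ) - NT X n a)| ≤ C * Real.log b

/-- PART G8: the full Jensen circle (port of `circ`, `drift` in Zk2/FP/Drift.lean) -/
def S_G8 (X : ℂ → ℂ) : Prop := ∀ (n k : ℕ) (w : ℂ), iteratedDeriv (n + k) X w = 0 → w.re ≠ 0 →
  ∃ s : ℂ, iteratedDeriv n X s = 0 ∧ s.re ≠ 0 ∧ |w.im - s.im| ≤ √k / 2

/-- PART G9: critical points without zeros off the line nearby have weight zero (port of `crit_weight` in Zk4/FP/VZ.lean) -/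
def S_G9 (X : ℂ → ℂ) : Prop := ∀ (n : ℕ) (u : ℝ), gn X n u ≠ 0 → gn X (n + 1) u = 0 → vw X n u ≠ 0 →
  ∃ s : ℂ, iteratedDeriv n X s = 0 ∧ s.re ≠ 0 ∧ |s.im - u| ≤ |s.re|

end

end Pool.Agent.Zk4.G
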